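import Mathlib

namespace Pool.Agent.H.MP_6ed805_an

open Ordinal Set Filter Topology

theorem clopen (a b : Ordinal.{0}) : IsClopen (Ioc a b) :=
  ⟨Order.Icc_succ_left a b ▸ isClosed_Icc, Order.Ioo_succ_right a b ▸ isOpen_Ioo⟩

theorem pw (m : ℕ) : (0 : Ordinal.{0}) < ω ^ m := pow_pos omega0_pos m

theorem closed_dvd {c : Ordinal.{0}} (hc : 0 < c) : IsClosed {t | c ∣ t} := by
  refine isOpen_compl_iff.1 (isOpen_iff_mem_nhds.2 fun t ht => Filter.mem_of_superset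
    (Ioo_mem_nhds ((mul_div_le t c).lt_of_ne fun e => ht ⟨_, e.symm⟩) (lt_mul_succ_div t hc.ne')) ?_)
  rintro _ ⟨h1, h2⟩ ⟨r, rfl⟩
  exact absurd (Order.lt_succ_iff.1 ((mul_lt_mul_iff_right₀ hc).1 h2))
    (not_le.2 ((mul_lt_mul_iff_right₀ hc).1 h1))

theorem cell {c t : Ordinal.{0}} (hc : 0 < c) (h2 : ¬ c * ω ∣ t) :
    ∃ q, t ∈ Ioc (c * q) (c * Order.succ q) := by
  by_cases h1 : c ∣ t
  · obtain ⟨r, rfl⟩ := h1
    obtain ⟨q, hq⟩ := Order.not_isSuccPrelimit_iff.1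
      (fun h => h2 (mul_dvd_mul_left c (isSuccPrelimit_iff_omega0_dvd.1 h)))
    obtain rfl := CovBy.succ_eq hq
    exact ⟨q, (mul_lt_mul_iff_right₀ hc).2 (Order.lt_succ q), le_rfl⟩
  · exact ⟨t / c, (mul_div_le t c).lt_of_ne fun e => h1 ⟨_, e.symm⟩,
      (lt_mul_succ_div t hc.ne').le⟩

/-- the least multiple above -/
noncomputable def up (c s : Ordinal.{0}) : Ordinal.{0} := sInf {t | c ∣ t ∧ s ≤ t}

theorem up_le {c s t : Ordinal.{0}} (h1 : c ∣ t) (h2 : s ≤ t) : up c s ≤ t := csInf_le' ⟨h1, h2⟩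

theorem up_spec {c : Ordinal.{0}} (hc : 0 < c) (s : Ordinal.{0}) : c ∣ up c s ∧ s ≤ up c s :=
  csInf_mem (s := {t | c ∣ t ∧ s ≤ t}) ⟨_, ⟨_, rfl⟩, (lt_mul_succ_div s hc.ne').le⟩

theorem up_eq {c s : Ordinal.{0}} (hc : 0 < c) (h : c ∣ s) : up c s = s :=
  le_antisymm (up_le h le_rfl) (up_spec hc s).2

theorem up_cell {c q s : Ordinal.{0}} (hc : 0 < c) (h : s ∈ Ioc (c * q) (c * Order.succ q)) :
    up c s = c * Order.succ q := by
  refine le_antisymm (up_le ⟨_, rfl⟩ h.2) ?_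
  obtain ⟨⟨r, hr⟩, h2⟩ := up_spec hc s
  rw [hr] at h2 ⊢
  exact mul_le_mul_right (Order.succ_le_of_lt ((mul_lt_mul_iff_right₀ hc).1 (h.1.trans_le h2))) c

theorem up_loc {c t : Ordinal.{0}} (hc : 0 < c) (h2 : ¬ c * ω ∣ t) :
    ∀ᶠ s in 𝓝 t, up c s = up c t := by
  obtain ⟨q, hq⟩ := cell hc h2
  filter_upwards [(clopen _ _).2.mem_nhds hq] with s hs
  rw [up_cell hc hs, up_cell hc hq]

theorem up_cont {c : Ordinal.{0}} (hc : 0 < c) : Continuous (up c) := by
  refine continuous_iff_continuousAt.2 fun t => ?_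
  by_cases h : c ∣ t
  · refine tendsto_order.2 ⟨fun a ha => ?_, fun b hb => ?_⟩
    · rw [up_eq hc h] at ha
      filter_upwards [Ioi_mem_nhds ha] with s hs using lt_of_lt_of_le hs (up_spec hc s).2
    · rw [up_eq hc h] at hb
      filter_upwards [Iio_mem_nhds (Order.lt_succ t)] with s hs using
        (up_le h (Order.lt_succ_iff.1 hs)).trans_lt hb
  · exact tendsto_const_nhds.congr' ((up_loc hc fun k => h (dvd_of_mul_right_dvd k)).mono
      fun _ k => k.symm)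

/-- the blocks of an interval -/
abbrev B (m : ℕ) (a : Ordinal.{0}) (k : ℕ) : Set Ordinal.{0} :=
  Ioc (a + ω ^ m * k) (a + ω ^ m * k + ω ^ m)

theorem blk_lt (m : ℕ) (a : Ordinal.{0}) (k : ℕ) : a + ω ^ m * k + ω ^ m < a + ω ^ (m + 1) := by
  rw [add_assoc, ← mul_add_one, pow_succ, add_lt_add_iff_left, mul_lt_mul_iff_right₀ (pw m)]
  exact_mod_cast natCast_lt_omega0 (k + 1)

theorem blk (m : ℕ) (a : Ordinal.{0}) (k : ℕ) : B m a k ⊆ Ioc a (a + ω ^ (m + 1)) :=
  Ioc_subset_Ioc le_self_add (blk_lt m a k).le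

theorem blk_le {m : ℕ} {a t : Ordinal.{0}} {k l : ℕ} (h1 : t ∈ B m a k)
    (h2 : a + ω ^ m * l < t) : l ≤ k := by
  have := h2.trans_le h1.2
  rw [add_assoc, ← mul_add_one, add_lt_add_iff_left, mul_lt_mul_iff_right₀ (pw m)] at this
  have : l < k + 1 := by exact_mod_cast this
  omega

theorem blk_ex {m : ℕ} {a t : Ordinal.{0}} (h : t ∈ Ioc a (a + ω ^ (m + 1)))
    (h2 : t ≠ a + ω ^ (m + 1)) : ∃ k, t ∈ B m a k := by
  classical
  have h3 : ∃ k : ℕ, t ≤ a + ω ^ m * k := by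
    obtain ⟨d, d1, d2⟩ := (lt_add_iff (pw _).ne').1 (h.2.lt_of_ne h2)
    rw [pow_succ] at d1
    obtain ⟨c, c1, c2⟩ := (lt_mul_iff_of_isSuccLimit isSuccLimit_omega0).1 d1
    obtain ⟨k, rfl⟩ := lt_omega0.1 c1
    exact ⟨k, d2.trans (add_le_add_right c2.le _)⟩
  have h4 := Nat.find_spec h3
  obtain ⟨k, hk⟩ := Nat.exists_eq_succ_of_ne_zero (n := Nat.find h3) fun e => by
    rw [e] at h4
    exact absurd h.1 (not_lt.2 (by simpa using h4))
  refine ⟨k, not_le.1 (Nat.find_min h3 (by omega)), ?_⟩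
  rw [hk] at h4
  rwa [add_assoc, ← mul_add_one, ← Nat.cast_succ]

theorem cnt (m : ℕ) : ∀ a : Ordinal.{0}, (Ioc a (a + ω ^ m)).Countable := by
  induction m with
  | zero => exact fun a => (countable_singleton (a + 1)).mono fun t ht =>
      le_antisymm (by simpa using ht.2) (Order.add_one_le_iff.2 ht.1)
  | succ m ih =>
    refine fun a => ((countable_iUnion fun k : ℕ => ih (a + ω ^ m * k)).insert
      (a + ω ^ (m + 1))).mono fun t ht => ?_
    by_cases h : t = a + ω ^ (m + 1)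
    · exact Or.inl h
    · exact Or.inr (mem_iUnion.2 (blk_ex ht h))

theorem ms {Y : Type 1} [TopologicalSpace Y] [T2Space Y] [CompactSpace Y] [Countable Y]
    (r : Y → ℕ) (hr : ∀ x, ∀ᶠ y in 𝓝 x, y = x ∨ r y < r x) (n : ℕ) : ∀ (A : Set Y) (p : Y),
    p ∈ A → IsClopen A → (∀ x ∈ A, x ≠ p → r x < n) → ∀ a : Ordinal.{0}, ∃ φ : Ordinal.{0} → Y,
      ContinuousOn φ (Ioc a (a + ω ^ n)) ∧ φ '' Ioc a (a + ω ^ n) = A := by
  classical
  have : TotallyDisconnectedSpace Y := ⟨fun S _ hS => by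
    rcases S.eq_empty_or_nonempty with rfl | hn
    · exact subsingleton_empty
    obtain ⟨x, hx, hm⟩ : ∃ x ∈ S, ∀ y ∈ S, r x ≤ r y :=
      ⟨_, Function.argminOn_mem r S hn, fun y hy => Function.argminOn_le r S hy⟩
    obtain ⟨U, u1, u2, u3⟩ := eventually_nhds_iff.1 (hr x)
    have : S ⊆ {x} := by
      by_contra hc
      obtain ⟨y, y1, y2⟩ := not_subset.1 hc
      obtain ⟨z, z1, z2, z3⟩ := hS U {x}ᶜ u2 isOpen_compl_singleton (fun z _ => by
        by_cases h : z = x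
        · exact Or.inl (h ▸ u3)
        · exact Or.inr h) ⟨x, hx, u3⟩ ⟨y, y1, y2⟩
      exact absurd ((u1 z z2).resolve_left z3) (not_lt.2 (hm z z1))
    exact subsingleton_singleton.anti this⟩
  induction n with
  | zero =>
    intro A p hp _ h a
    refine ⟨fun _ => p, continuousOn_const, ?_⟩
    rw [Nonempty.image_const ⟨a + 1, by simp⟩]
    exact (eq_singleton_iff_unique_mem.2 ⟨hp, fun x hx => by_contra fun k => by
      simpa using h x hx k⟩).symm
  | succ n ih =>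
    intro A p hp hA h a
    have : Nonempty Y := ⟨p⟩
    obtain ⟨e, he⟩ := exists_surjective_nat Y
    have hU : ∀ k, ∃ U : Set Y, IsClopen U ∧ U ⊆ A ∧ (∀ y ∈ U, y ≠ e k → r y < n) ∧
        (e k ∈ A → e k ≠ p → e k ∈ U) ∧ p ∉ U := fun k => by
      by_cases hk : e k ∈ A ∧ e k ≠ p
      · obtain ⟨U, u1, u2, u3⟩ := eventually_nhds_iff.1 (hr (e k))
        obtain ⟨V, v1, v2, v3⟩ := compact_exists_isClopen_in_isOpen
          ((u2.inter hA.2).inter (isOpen_compl_singleton (x := p))) ⟨⟨u3, hk.1⟩, hk.2⟩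
        refine ⟨V, v1, fun y hy => (v3 hy).1.2, fun y hy k1 => ?_, fun _ _ => v2,
          fun k1 => (v3 k1).2 rfl⟩
        have := (u1 y (v3 hy).1.1).resolve_left k1
        have := h _ hk.1 hk.2
        omega
      · exact ⟨∅, isClopen_empty, empty_subset _, by simp, fun a b => absurd ⟨a, b⟩ hk, by simp⟩
    choose U u1 u2 u3 u4 u5 using hU
    have v1 : ∀ k, IsClopen (disjointed U k) := fun k => by
      rw [disjointed_eq_inter_compl]
      exact (u1 k).inter ((finite_lt_nat k).isClopen_biInter fun j _ => (u1 j).compl)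
    have hφ : ∀ k, ∃ φ : Ordinal.{0} → Y, ContinuousOn φ (B n a k) ∧
        disjointed U k ⊆ φ '' B n a k ∧ φ '' B n a k ⊆ insert p (disjointed U k) := fun k => by
      rcases (disjointed U k).eq_empty_or_nonempty with h0 | ⟨q, hq⟩
      · exact ⟨fun _ => p, continuousOn_const, h0 ▸ empty_subset _, by
          rintro _ ⟨_, _, rfl⟩; exact Or.inl rfl⟩
      · obtain ⟨q, q1, q2⟩ : ∃ q ∈ disjointed U k, ∀ x ∈ disjointed U k, x ≠ q → r x < n := by
          by_cases hk : e k ∈ disjointed U k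
          · exact ⟨_, hk, fun x hx => u3 k x (disjointed_subset U k hx)⟩
          · exact ⟨q, hq, fun x hx _ => u3 k x (disjointed_subset U k hx) fun k1 => hk (k1 ▸ hx)⟩
        obtain ⟨φ, f1, f2⟩ := ih _ q q1 (v1 k) q2 (a + ω ^ n * k)
        exact ⟨φ, f1, f2.ge, f2.le.trans (subset_insert _ _)⟩
    choose φ f1 f2 f3 using hφ
    let ψ : Ordinal.{0} → Y := fun t => if h : ∃ k, t ∈ B n a k then φ h.choose t else p
    have p1 : ∀ k, ∀ t ∈ B n a k, ψ t = φ k t := fun k t ht => by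
      have h : ∃ k, t ∈ B n a k := ⟨k, ht⟩
      simp only [ψ, dif_pos h]
      rw [le_antisymm (blk_le ht h.choose_spec.1) (blk_le h.choose_spec ht.1)]
    have p2 : ψ (a + ω ^ (n + 1)) = p := dif_neg fun ⟨k, hk⟩ => absurd hk.2 (not_le.2 (blk_lt n a k))
    have cov : ∀ x ∈ A, x ≠ p → ∃ k, x ∈ disjointed U k := fun x hx k1 => by
      obtain ⟨k, rfl⟩ := he x
      exact mem_iUnion.1 (iUnion_disjointed (f := U) ▸ mem_iUnion.2 ⟨k, u4 k hx k1⟩)
    refine ⟨ψ, fun t ht => ?_, subset_antisymm ?_ fun x hx => ?_⟩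
    · by_cases h1 : t = a + ω ^ (n + 1)
      · subst h1
        rw [ContinuousWithinAt, p2]
        refine tendsto_nhds.2 fun W w1 w2 => ?_
        obtain ⟨F, hF⟩ := (hA.1.sdiff w1).isCompact.elim_finite_subcover (disjointed U)
          (fun k => (v1 k).2) fun x hx => mem_iUnion.2 (cov x hx.1 fun k1 => hx.2 (k1 ▸ w2))
        obtain ⟨N, hN⟩ := F.bddAbove
        filter_upwards [self_mem_nhdsWithin, mem_nhdsWithin_of_mem_nhds (Ioi_mem_nhds
          (le_self_add.trans_lt (blk_lt n a (N + 1))))] with s s1 s2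
        by_cases h2 : s = a + ω ^ (n + 1)
        · rw [mem_preimage, h2, p2]; exact w2
        obtain ⟨k, hk⟩ := blk_ex s1 h2
        have k1 := blk_le hk s2
        rw [mem_preimage, p1 k s hk]
        rcases f3 k ⟨s, hk, rfl⟩ with k2 | k2
        · rw [k2]; exact w2
        by_contra k3
        obtain ⟨j, j1, j2⟩ := mem_iUnion₂.1 (hF ⟨u2 k (disjointed_subset U k k2), k3⟩)
        have := hN j1
        exact disjoint_left.1 (disjoint_disjointed U (show k ≠ j by omega)) k2 j2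
      · obtain ⟨k, hk⟩ := blk_ex ht h1
        have o := (clopen _ _).2.mem_nhds hk
        exact (((f1 k).continuousAt o).congr
          (mem_of_superset o fun s hs => (p1 k s hs).symm)).continuousWithinAt
    · rintro _ ⟨t, ht, rfl⟩
      by_cases h1 : t = a + ω ^ (n + 1)
      · rw [h1, p2]; exact hp
      obtain ⟨k, hk⟩ := blk_ex ht h1
      rw [p1 k t hk]
      rcases f3 k ⟨t, hk, rfl⟩ with k2 | k2
      · rw [k2]; exact hp
      · exact u2 k (disjointed_subset U k k2)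
    · by_cases h1 : x = p
      · exact ⟨_, ⟨lt_add_of_pos_right _ (pw _), le_rfl⟩, p2.trans h1.symm⟩
      obtain ⟨k, hk⟩ := cov x hx h1
      obtain ⟨t, t1, t2⟩ := f2 k hk
      exact ⟨t, blk n a k t1, (p1 k t t1).trans t2⟩

theorem img {X Z : Type 1} [TopologicalSpace X] [CompactSpace X] [Countable X]
    [TopologicalSpace Z] [T2Space Z] {g : X → Z} (hg : Continuous g) (ρ : X → ℕ) (n : ℕ)
    (h1 : ∀ x, ∀ᶠ y in 𝓝 x, g y = g x ∨ ρ y < ρ x) (x0 : X) (h2 : ∀ x, ρ x ≤ n)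
    (h3 : ∀ x, g x ≠ g x0 → ρ x < n) : ∃ φ : Ordinal.{0} → Z,
      ContinuousOn φ (Ioc 0 (0 + ω ^ n)) ∧ φ '' Ioc 0 (0 + ω ^ n) = range g := by
  have : CompactSpace (range g) := isCompact_iff_compactSpace.1 (isCompact_range hg)
  have : Countable (range g) := (countable_range g).to_subtype
  have bd : ∀ y : range g, BddAbove (ρ '' {x | g x = y.1}) := fun y => ⟨n, by
    rintro _ ⟨x, -, rfl⟩; exact h2 x⟩
  have at' : ∀ y : range g, ∃ x, g x = y.1 ∧ ρ x = sSup (ρ '' {x | g x = y.1}) := fun y =>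
    Nat.sSup_mem (Nonempty.image ρ y.2) (bd y)
  obtain ⟨φ, f1, f2⟩ := ms (Y := range g) (fun y => sSup (ρ '' {x | g x = y.1})) (fun y => by
    choose U u1 u2 u3 using fun x => eventually_nhds_iff.1 (h1 x)
    have c : IsClosed (g '' (⋃ x ∈ {x | g x = y.1}, U x)ᶜ) :=
      ((isOpen_biUnion fun x _ => u2 x).isClosed_compl.isCompact.image hg).isClosed
    have m : y.1 ∈ (g '' (⋃ x ∈ {x | g x = y.1}, U x)ᶜ)ᶜ := by
      rintro ⟨x, x1, x2⟩
      exact x1 (mem_biUnion x2 (u3 x))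
    filter_upwards [continuous_subtype_val.continuousAt.preimage_mem_nhds
      (c.isOpen_compl.mem_nhds m)] with z hz
    obtain ⟨x, x1, x2⟩ := at' z
    have : x ∈ ⋃ x ∈ {x | g x = y.1}, U x := by_contra fun k => hz ⟨x, k, x1⟩
    obtain ⟨w, w1, w2⟩ := mem_iUnion₂.1 this
    rcases u1 w x w2 with k | k
    · exact Or.inl (Subtype.ext (x1.symm.trans (k.trans w1)))
    · exact Or.inr (x2 ▸ k.trans_le (le_csSup (bd y) ⟨w, w1, rfl⟩))) n univ ⟨_, x0, rfl⟩
    (mem_univ _) isClopen_univ (fun y _ hy => by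
      obtain ⟨x, x1, x2⟩ := at' y
      exact x2 ▸ h3 x fun k => hy (Subtype.ext (x1.symm.trans k))) 0
  refine ⟨fun t => (φ t).1, continuous_subtype_val.comp_continuousOn f1, ?_⟩
  rw [← image_image Subtype.val φ, f2, image_univ, Subtype.range_coe]

end Pool.Agent.H.MP_6ed805_an
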