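import Pool.Agent.H.MP_6ed805_an.A

namespace Pool.Agent.H.MP_6ed805_an

open Ordinal Set Filter Topology

/-- the ordinal interval -/
abbrev K (α : ℕ) : Type 1 := Icc (1 : Ordinal.{0}) (ω ^ α)

variable {α : ℕ}

/-- the top point -/
noncomputable def top (α : ℕ) : K α := ⟨ω ^ α, Order.one_le_iff_pos.2 (pw α), le_rfl⟩

/-- retraction onto a derived set -/
noncomputable def P (j : Fin (α + 1)) (s : K α) : K α :=
  ⟨up (ω ^ j.1) s, s.2.1.trans (up_spec (pw _) _).2,
    up_le (pow_dvd_pow ω (Nat.lt_succ_iff.1 j.2)) s.2.2⟩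

theorem P_cont (j : Fin (α + 1)) : Continuous (P j) :=
  ((up_cont (pw _)).comp continuous_subtype_val).subtype_mk _

theorem eq_top {s : K α} (h : ω ^ α ∣ s.1) : s = top α :=
  Subtype.ext (le_antisymm s.2.2 (Ordinal.le_of_dvd (one_pos.trans_le s.2.1).ne' h))

theorem P_zero (j : Fin (α + 1)) (h : j.1 = 0) (s : K α) : P j s = s :=
  Subtype.ext (up_eq (pw _) (by simp [h]))

theorem P_last (j : Fin (α + 1)) (h : j.1 = α) (s : K α) : P j s = top α :=
  eq_top (by
    have := (up_spec (pw j.1) s.1).1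
    rw [h] at this
    simpa only [P, h] using this)

open Classical in
/-- truncated rank -/
noncomputable def rk (a b : ℕ) (s : K α) : ℕ :=
  ((Finset.Ico a b).filter fun j => ω ^ (j + 1) ∣ s.1).card

theorem rk_le (a b : ℕ) (s : K α) : rk a b s ≤ b - a := by
  classical
  exact (Finset.card_filter_le _ _).trans_eq (Nat.card_Ico a b)

theorem rk_lt (h : 0 < α) {s : K α} (hs : s ≠ top α) : rk 0 α s < α := by
  classical
  refine lt_of_lt_of_eq (Finset.card_lt_card (Finset.filter_ssubset.2 ⟨α - 1, by simp; omega,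
    fun k => hs (eq_top ?_)⟩)) (by simp)
  rwa [Nat.sub_add_cancel h] at k

theorem loc {a b : Fin (α + 1)} (hab : a ≤ b) (x : K α) : ∀ᶠ y in 𝓝 x, rk a b y ≤ rk a b x ∧
    ((∀ f : K α → ℝ, f (P a y) - f (P b y) = f (P a x) - f (P b x)) ∨ rk a b y < rk a b x) := by
  classical
  have h0 : ∃ m : ℕ, ¬ ω ^ (m + 1) ∣ x.1 := ⟨α, fun h => absurd
    (Ordinal.le_of_dvd (one_pos.trans_le x.2.1).ne' h) (not_le.2 (x.2.2.trans_lt (by
      rw [pow_succ]; exact lt_mul_of_one_lt_right (pw α) one_lt_omega0)))⟩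
  obtain ⟨r, r1, r2⟩ : ∃ r : ℕ, ¬ ω ^ (r + 1) ∣ x.1 ∧ ω ^ r ∣ x.1 := by
    refine ⟨Nat.find h0, Nat.find_spec h0, ?_⟩
    rcases Nat.eq_zero_or_pos (Nat.find h0) with h | h
    · simp [h]
    · have := Nat.find_min h0 (m := Nat.find h0 - 1) (by omega)
      rwa [Nat.sub_add_cancel h, not_not] at this
  have c := (continuous_subtype_val (p := (· ∈ Icc (1 : Ordinal.{0}) (ω ^ α)))).tendsto x
  have e : ∀ j, r ≤ j → ∀ᶠ y : K α in 𝓝 x, up (ω ^ j) y.1 = up (ω ^ j) x.1 := fun j hj =>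
    c.eventually (up_loc (pw j) fun h => r1 ((pow_dvd_pow ω (by omega)).trans
      (pow_succ ω j ▸ h)))
  have e3 : ∀ᶠ y : K α in 𝓝 x, r ≤ a → P a y = P a x ∧ P b y = P b x := by
    by_cases h : r ≤ a
    · filter_upwards [e a h, e b (h.trans hab)] with y h1 h2 _ using
        ⟨Subtype.ext h1, Subtype.ext h2⟩
    · exact Eventually.of_forall fun _ k => absurd k h
  filter_upwards [e r le_rfl, e3] with y h1 h3
  by_cases hy : y = x
  · simp [hy]
  have h2 : ¬ ω ^ r ∣ y.1 := fun k => hy (Subtype.ext (by rwa [up_eq (pw r) k, up_eq (pw r) r2] at h1))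
  have h4 : ∀ j, ω ^ j ∣ y.1 → ω ^ j ∣ x.1 := fun j k => (pow_dvd_pow ω (not_lt.1 fun l =>
    h2 ((pow_dvd_pow ω l.le).trans k))).trans r2
  have sub : ((Finset.Ico a.1 b.1).filter fun j => ω ^ (j + 1) ∣ y.1) ⊆
      (Finset.Ico a.1 b.1).filter fun j => ω ^ (j + 1) ∣ x.1 :=
    Finset.monotone_filter_right _ fun j _ => h4 _
  have st : ∀ j, a.1 < j → j ≤ b.1 → j ≤ r → ¬ ω ^ j ∣ y.1 → rk a b y < rk a b x := by
    intro j j1 j2 j3 j4
    obtain ⟨i, rfl⟩ := Nat.exists_eq_succ_of_ne_zero (n := j) (by omega)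
    exact Finset.card_lt_card ⟨sub, fun k => j4 (Finset.mem_filter.1 (k (Finset.mem_filter.2
      ⟨Finset.mem_Ico.2 ⟨by omega, by omega⟩, (pow_dvd_pow ω j3).trans r2⟩))).2⟩
  refine ⟨Finset.card_le_card sub, ?_⟩
  by_cases k1 : r ≤ a
  · exact Or.inl fun f => by rw [(h3 k1).1, (h3 k1).2]
  by_cases k2 : a = b
  · exact Or.inl fun f => by simp [k2]
  have k3 : a.1 < b.1 := lt_of_le_of_ne hab fun k => k2 (Fin.ext k)
  by_cases k4 : ω ^ b.1 ∣ y.1
  · have z : ∀ s : K α, ω ^ b.1 ∣ s.1 → P a s = P b s := fun s hs => Subtype.ext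
      ((up_eq (pw _) ((pow_dvd_pow ω k3.le).trans hs)).trans (up_eq (pw _) hs).symm)
    exact Or.inl fun f => by simp only [z y k4, z x (h4 _ k4), _root_.sub_self]
  rcases le_total r b.1 with k5 | k5
  · exact Or.inr (st r (by omega) k5 le_rfl h2)
  · exact Or.inr (st b k3 le_rfl k5 k4)

/-- short steps -/
abbrev I (α : ℕ) : Type :=
  {q : Fin (α + 1) × Fin (α + 1) × Bool // q.1 ≤ q.2.1 ∧ q.2.1.1 ≤ q.1.1 + (α - 1) / 2}

/-- the norming functionals -/
noncomputable def nv (q : I α) (s : K α) (f : C(K α, ℝ)) : ℝ :=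
  if q.1.2.2 then f (top α) else f (P q.1.1 s) - f (P q.1.2.1 s)

theorem nv_le (q : I α) (s : K α) (f : C(K α, ℝ)) : |nv q s f| ≤ 2 * ‖f‖ := by
  have := fun t => f.norm_coe_le_norm t
  unfold nv
  split_ifs
  · linarith [this (top α), norm_nonneg f, Real.norm_eq_abs (f (top α))]
  · refine (abs_sub _ _).trans ?_
    linarith [this (P q.1.1 s), this (P q.1.2.1 s), Real.norm_eq_abs (f (P q.1.1 s)),
      Real.norm_eq_abs (f (P q.1.2.1 s))]

theorem nv_lin (q : I α) (s : K α) : IsLinearMap ℝ (nv q s) := by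
  constructor <;> intros <;> unfold nv <;> split_ifs <;> simp <;> ring

theorem nv_cont (q : I α) (f : C(K α, ℝ)) : Continuous fun s => nv q s f := by
  unfold nv
  split_ifs
  · exact continuous_const
  · exact (f.continuous.comp (P_cont _)).sub (f.continuous.comp (P_cont _))

theorem nv_loc (q : I α) (x : K α) : ∀ᶠ y in 𝓝 x, rk q.1.1 q.1.2.1 y ≤ rk q.1.1 q.1.2.1 x ∧
    (nv q y = nv q x ∨ rk q.1.1 q.1.2.1 y < rk q.1.1 q.1.2.1 x) :=
  (loc q.2.1 x).mono fun y h => ⟨h.1, h.2.imp_left fun k => funext fun f => by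
    simp only [nv, k f]⟩

theorem norming (h : 3 ≤ α) (u : C(K α, ℝ)) : ∃ q s, ‖u‖ / 5 ≤ |nv q s u| := by
  by_contra hc
  push Not at hc
  have : Nonempty (K α) := ⟨top α⟩
  refine lt_irrefl ‖u‖ ((ContinuousMap.norm_lt_iff_of_nonempty u).2 fun s => ?_)
  let l : ℕ → Fin (α + 1) := fun i => ⟨min (i * ((α - 1) / 2)) α, by omega⟩
  have k : ∀ i, |u (P (l i) s) - u (P (l (i + 1)) s)| < ‖u‖ / 5 := fun i =>
    hc ⟨(l i, l (i + 1), false), by
      simp only [l, Fin.mk_le_mk, add_mul, one_mul]; constructor <;> omega⟩ s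
  have k5 : |u (top α)| < ‖u‖ / 5 := hc ⟨(0, 0, true), by simp⟩ s
  have a0 := abs_lt.1 (k 0)
  have a1 := abs_lt.1 (k 1)
  have a2 := abs_lt.1 (k 2)
  have a3 := abs_lt.1 (k 3)
  rw [P_zero _ (by simp [l])] at a0
  rw [P_last (l (3 + 1)) (by simp only [l]; omega)] at a3
  rw [abs_lt] at k5
  rw [Real.norm_eq_abs, abs_lt]
  norm_num at a0 a1 a2 a3
  constructor <;> linarith [a0.1, a0.2, a1.1, a1.2, a2.1, a2.2, a3.1, a3.2, k5.1, k5.2]

/-- the family of functionals -/
noncomputable def g (x : (K α × K α) × (I α × I α × Bool)) (f : C(K α, ℝ)) : ℝ :=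
  if x.2.2.2 then f x.1.1 else (nv x.2.1 x.1.1 f + nv x.2.2.1 x.1.2 f) / 4

theorem exists_T (h : 3 ≤ α) : ∃ T : C(K α, ℝ) →ₗᵢ[ℝ] C(K α, ℝ), ∀ x, ∃ t, ∀ f, T f t = g x f := by
  have : Countable (K α) := (Set.Countable.mono (fun t (ht : t ∈ Icc 1 (ω ^ α)) =>
    mem_Ioc.2 ⟨one_pos.trans_le ht.1, by simpa using ht.2⟩) (cnt α 0)).to_subtype
  let i0 : I α := ⟨(0, 0, true), by simp⟩
  obtain ⟨φ, f1, f2⟩ := img (g := g (α := α)) (continuous_pi fun f =>
      continuous_prod_of_discrete_right.2 fun q => by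
        unfold g
        dsimp only
        split_ifs
        · fun_prop
        · exact (((nv_cont _ f).comp continuous_fst).add
            ((nv_cont _ f).comp continuous_snd)).div_const _)
    (fun x => if x.2.2.2 then rk 0 α x.1.1 else
      rk x.2.1.1.1 x.2.1.1.2.1 x.1.1 + rk x.2.2.1.1.1 x.2.2.1.1.2.1 x.1.2) α (by
      rintro ⟨⟨s, s'⟩, q, q', c⟩
      rw [nhds_prod_eq, nhds_discrete (I α × I α × Bool), prod_pure, eventually_map, nhds_prod_eq]
      cases c
      · filter_upwards [(nv_loc q s).prod_mk (nv_loc q' s')] with y hy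
        obtain ⟨⟨a1, a2⟩, b1, b2⟩ := hy
        simp only [Bool.false_eq_true, if_false]
        rcases a2 with a2 | a2
        · rcases b2 with b2 | b2
          · exact Or.inl (funext fun f => by simp only [g, a2, b2, Bool.false_eq_true, if_false])
          · exact Or.inr (by omega)
        · exact Or.inr (by omega)
      · filter_upwards [(loc (Fin.zero_le (Fin.last α)) s).prod_inl (𝓝 s')] with y hy
        refine hy.2.imp (fun k => funext fun f => ?_) fun k => by simpa using k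
        have := k f
        simp only [P_zero 0 rfl, P_last (Fin.last α) rfl] at this
        simpa [g] using this) ((top α, top α), i0, i0, true) (fun x => by
      split_ifs
      · simpa using rk_le 0 α x.1.1
      · have := rk_le x.2.1.1.1 x.2.1.1.2.1 x.1.1
        have := rk_le x.2.2.1.1.1 x.2.2.1.1.2.1 x.1.2
        have := x.2.1.2.2
        have := x.2.2.1.2.2
        omega) fun x hx => by
      split_ifs with k
      · exact rk_lt (by omega) fun e => hx (funext fun f => by simp [g, k, e])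
      · have := rk_le x.2.1.1.1 x.2.1.1.2.1 x.1.1
        have := rk_le x.2.2.1.1.1 x.2.2.1.1.2.1 x.1.2
        have := x.2.1.2.2
        have := x.2.2.1.2.2
        omega
  have m : ∀ t : K α, t.1 ∈ Ioc 0 (0 + ω ^ α) := fun t =>
    ⟨one_pos.trans_le t.2.1, by simpa using t.2.2⟩
  have e1 : ∀ t : K α, ∃ x, g x = φ t := fun t => f2.le ⟨_, m t, rfl⟩
  have e2 : ∀ x, ∃ t : K α, φ t = g x := fun x => by
    obtain ⟨t, t1, t2⟩ := f2.ge ⟨x, rfl⟩
    exact ⟨⟨t, Order.one_le_iff_pos.2 t1.1, by simpa using t1.2⟩, t2⟩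
  have lin : ∀ t : K α, IsLinearMap ℝ (φ t) := fun t => by
    obtain ⟨x, hx⟩ := e1 t
    rw [← hx]
    constructor <;> intros <;> unfold g <;> split_ifs <;>
      simp [(nv_lin _ _).map_add, (nv_lin _ _).map_smul] <;> ring
  have bd : ∀ (t : K α) f, |φ t f| ≤ ‖f‖ := fun t f => by
    obtain ⟨x, hx⟩ := e1 t
    rw [← hx]
    unfold g
    split_ifs
    · exact f.norm_coe_le_norm _
    · rw [abs_div, abs_of_pos (by norm_num : (0 : ℝ) < 4)]
      linarith [abs_add_le (nv x.2.1 x.1.1 f) (nv x.2.2.1 x.1.2 f), nv_le x.2.1 x.1.1 f,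
        nv_le x.2.2.1 x.1.2 f]
  let T : C(K α, ℝ) →ₗ[ℝ] C(K α, ℝ) :=
    { toFun := fun f => ⟨fun t => φ t f, (continuous_apply f).comp
        (f1.comp_continuous continuous_subtype_val m)⟩
      map_add' := fun a b => ContinuousMap.ext fun t => (lin t).map_add a b
      map_smul' := fun c a => ContinuousMap.ext fun t => (lin t).map_smul c a }
  refine ⟨⟨T, fun f => le_antisymm ((ContinuousMap.norm_le _ (norm_nonneg _)).2 fun t => bd t f)
    ((ContinuousMap.norm_le _ (norm_nonneg _)).2 fun s => ?_)⟩, fun x => ?_⟩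
  · obtain ⟨t, ht⟩ := e2 ((s, s), i0, i0, true)
    have : T f t = f s := (congrFun ht f).trans (by simp [g])
    exact this ▸ (T f).norm_coe_le_norm t
  · obtain ⟨t, ht⟩ := e2 x
    exact ⟨t, fun f => congrFun ht f⟩

theorem both (h : 3 ≤ α) (u v : C(K α, ℝ)) {m : ℝ} (hu : m ≤ ‖u‖) (hv : m ≤ ‖v‖) :
    ∃ x, m / 40 ≤ |g x u| ∧ m / 40 ≤ |g x v| := by
  obtain ⟨q, s, h1⟩ := norming h u
  obtain ⟨q', s', h2⟩ := norming h v
  let i0 : I α := ⟨(0, 0, false), by simp⟩
  have z : ∀ f, nv i0 s f = 0 := fun f => by simp [nv, i0]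
  have e : ∀ a b t t' (f : C(K α, ℝ)), |g ((t, t'), a, b, false) f| = |nv a t f + nv b t' f| / 4 :=
    fun a b t t' f => by simp [g, abs_div]
  by_cases k1 : m / 10 ≤ |nv q s v|
  · exact ⟨((s, s), q, i0, false), by
      rw [e, e, z, z, add_zero, add_zero]; constructor <;> linarith [norm_nonneg u]⟩
  by_cases k2 : m / 10 ≤ |nv q' s' u|
  · exact ⟨((s, s'), i0, q', false), by
      rw [e, e, z, z, zero_add, zero_add]; constructor <;> linarith [norm_nonneg v]⟩
  refine ⟨((s, s'), q, q', false), ?_⟩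
  rw [e, e]
  have a1 := abs_sub (nv q s u + nv q' s' u) (nv q' s' u)
  have a2 := abs_sub (nv q s v + nv q' s' v) (nv q s v)
  rw [add_sub_cancel_right] at a1
  rw [add_sub_cancel_left] at a2
  constructor <;> linarith

end Pool.Agent.H.MP_6ed805_an
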